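import Pool.Agent.N718.DC.Stm2

/-!
Project DC (helper718), part POS (helper281): families positive on an interval in a residue class.
-/

set_option autoImplicit false

namespace Pool.Agent.N281.DC

open Finset Pool.Agent.N718.DC

namespace POSaux

/-- integers in a residue class in an interval -/
theorem count (M : ℕ) (hM : 1 ≤ M) (γ : ℤ) (a b : ℝ) (S : Finset ℤ)
    (hS : ∀ n : ℤ, a ≤ n → (n : ℝ) ≤ b → (M : ℤ) ∣ n - γ → n ∈ S) :
    (b - a) / M - 1 ≤ (S.card : ℝ) := by
  have hM0 : (0 : ℝ) < M := by exact_mod_cast hM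
  rcases le_or_gt ((b - a) / M) 0 with h | h
  · have : (0 : ℝ) ≤ S.card := Nat.cast_nonneg _
    linarith
  obtain ⟨T, hT⟩ : ∃ T, T = ⌊(b - a) / M⌋₊ := ⟨_, rfl⟩
  obtain ⟨m, hm⟩ : ∃ m : ℤ, m = ⌈(a - γ) / M⌉ := ⟨_, rfl⟩
  have hm1 : (a - γ) / M ≤ m := by rw [hm]; exact Int.le_ceil _
  have hm2 : (m : ℝ) < (a - γ) / M + 1 := by rw [hm]; exact Int.ceil_lt_add_one _
  rw [div_le_iff₀ hM0] at hm1
  have hm3 : (m : ℝ) * M < a - γ + M := by
    have := mul_lt_mul_of_pos_right hm2 hM0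
    rwa [add_mul, div_mul_cancel₀ _ hM0.ne', one_mul] at this
  have hT1 : (T : ℝ) * M ≤ b - a := by
    have := Nat.floor_le h.le
    rw [← hT, le_div_iff₀ hM0] at this
    exact this
  have hinj : T ≤ S.card := by
    have := Finset.card_le_card_of_injOn (s := range T) (t := S)
      (fun t : ℕ => γ + M * m + M * t) ?_ ?_
    · rwa [card_range] at this
    · intro t ht
      have ht' : t < T := mem_range.1 (mem_coe.1 ht)
      have ht2 : (t : ℝ) + 1 ≤ T := by exact_mod_cast ht'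
      have ht3 : ((t : ℝ) + 1) * M ≤ T * M := mul_le_mul_of_nonneg_right ht2 hM0.le
      have ht4 : (0 : ℝ) ≤ t * M := by positivity
      refine mem_coe.2 (hS _ ?_ ?_ ?_)
      · push_cast
        linarith
      · push_cast
        linarith
      · refine ⟨m + t, ?_⟩
        ring
    · intro t _ t' _ h
      have h' : γ + (M : ℤ) * m + M * t = γ + M * m + M * t' := h
      have h2 : (M : ℤ) * t = M * t' := by linarith
      have hMz : (M : ℤ) ≠ 0 := by
        have : (0 : ℤ) < M := by exact_mod_cast hM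
        exact this.ne'
      exact_mod_cast mul_left_cancel₀ hMz h2
  have h3 : (b - a) / M < T + 1 := by rw [hT]; exact Nat.lt_floor_add_one _
  have : (T : ℝ) ≤ S.card := by exact_mod_cast hinj
  linarith

/-- the values of a form with small coefficients except for the first one -/
theorem value {e : ℕ} (c : Fin (e + 2) → ℤ) (H θ B z : ℝ) (D : ℕ) (hH : 0 < H) (hB : 1 ≤ B)
    (hz : |z| ≤ B) (hD : e + 1 ≤ D) (hθ : θ * (D * B ^ D) ≤ 1 / 4) (hθ0 : 0 < θ)
    (h0 : H / 2 ≤ (c 0 : ℝ)) (h1 : ∀ j : Fin (e + 1), |(c j.succ : ℝ)| ≤ θ * H) :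
    0 < fmv c (1 : ℝ) z := by
  unfold fmv fm
  rw [Fin.sum_univ_succ]
  simp only [one_pow, mul_one, Fin.val_zero, pow_zero]
  have hj : ∀ j : Fin (e + 1), -(θ * H * B ^ D) ≤ (c j.succ : ℝ) * z ^ ((j.succ : Fin (e + 2)) : ℕ) := by
    intro j
    have e1 : |(c j.succ : ℝ) * z ^ ((j.succ : Fin (e + 2)) : ℕ)| ≤ θ * H * B ^ D := by
      rw [abs_mul, abs_pow]
      have hjD : ((j.succ : Fin (e + 2)) : ℕ) ≤ D := by
        have := j.2
        rw [Fin.val_succ]
        omega
      have e2 : |z| ^ ((j.succ : Fin (e + 2)) : ℕ) ≤ B ^ D :=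
        (pow_le_pow_left₀ (abs_nonneg _) hz _).trans (pow_le_pow_right₀ hB hjD)
      exact mul_le_mul (h1 j) e2 (by positivity) (by positivity)
    exact (abs_le.1 e1).1
  have hs : -(θ * H * B ^ D * (e + 1)) ≤
      ∑ j : Fin (e + 1), (c j.succ : ℝ) * z ^ ((j.succ : Fin (e + 2)) : ℕ) := by
    have e1 := sum_le_sum fun (j : Fin (e + 1)) (_ : j ∈ univ) => hj j
    rw [sum_const, card_univ, Fintype.card_fin, nsmul_eq_mul] at e1
    push_cast at e1
    linarith
  have hDr : ((e : ℝ) + 1) ≤ D := by exact_mod_cast hD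
  have hb : θ * H * B ^ D * (e + 1) ≤ H / 4 := by
    have e1 : θ * H * B ^ D * (e + 1) ≤ θ * H * B ^ D * D :=
      mul_le_mul_of_nonneg_left hDr (by positivity)
    have e2 : θ * H * B ^ D * D = (θ * (D * B ^ D)) * H := by ring
    have e3 : (θ * (D * B ^ D)) * H ≤ 1 / 4 * H := mul_le_mul_of_nonneg_right hθ hH.le
    linarith
  linarith

end POSaux

open POSaux

theorem pos_ : S_POS := by
  classical
  intro ι _ _ e α β _
  obtain ⟨B, hB⟩ : ∃ B : ℝ, B = 1 + |α| + |β| := ⟨_, rfl⟩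
  have hB1 : 1 ≤ B := by
    rw [hB]
    have := abs_nonneg α
    have := abs_nonneg β
    linarith
  obtain ⟨D, hD⟩ : ∃ D : ℕ, D = ncI e + 1 := ⟨_, rfl⟩
  have hD1 : (1 : ℝ) ≤ D := by
    have : 1 ≤ D := by omega
    exact_mod_cast this
  have hBD : 1 ≤ B ^ D := one_le_pow₀ hB1
  obtain ⟨θ, hθ⟩ : ∃ θ : ℝ, θ = 1 / (4 * (D * B ^ D)) := ⟨_, rfl⟩
  have hθ0 : 0 < θ := by rw [hθ]; positivity
  have hθ1 : θ * (D * B ^ D) ≤ 1 / 4 := by
    rw [hθ]
    have : (D : ℝ) * B ^ D ≠ 0 := by positivity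
    field_simp
    exact le_rfl
  have hθ4 : θ ≤ 1 / 4 := by
    have : (1 : ℝ) ≤ D * B ^ D := by nlinarith
    nlinarith
  have hek : ∀ k, e k + 1 ≤ D := by
    intro k
    have : e k + 2 ≤ ncI e := by
      unfold ncI
      exact single_le_sum (f := fun k => e k + 2) (fun _ _ => Nat.zero_le _) (mem_univ k)
    omega
  refine ⟨(θ / 8) ^ ncI e, by positivity, ?_⟩
  intro M hM γ
  have hM0 : (0 : ℝ) < M := by exact_mod_cast hM
  refine ⟨⌈2 * M / θ⌉₊ + 1, ?_⟩
  intro H hH
  have hH1 : 1 ≤ H := by omega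
  have hH1' : (1 : ℝ) ≤ H := by exact_mod_cast hH1
  have hH2 : 2 * M / θ ≤ H := by
    have h1 := Nat.le_ceil (2 * M / θ)
    have h2 : ((⌈2 * M / θ⌉₊ : ℕ) : ℝ) ≤ H := by
      have : ⌈2 * M / θ⌉₊ ≤ H := by omega
      exact_mod_cast this
    linarith
  rw [div_le_iff₀ hθ0] at hH2
  -- the sets of coefficients
  obtain ⟨S, hS⟩ : ∃ S : (k : ι) → Fin (e k + 2) → Finset ℤ, S = fun k j =>
      (Icc (-(H : ℤ)) H).filter fun n => (M : ℤ) ∣ n - γ k j ∧
        (j = 0 → (H : ℝ) / 2 ≤ n) ∧ (j ≠ 0 → |(n : ℝ)| ≤ θ * H) := ⟨_, rfl⟩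
  have hcard : ∀ k j, θ / 8 * ((2 * H + 1 : ℕ) / M) ≤ ((S k j).card : ℝ) := by
    intro k j
    have key : θ / 8 * (((2 * H + 1 : ℕ) : ℝ) / M) ≤ θ * H / M - 1 := by
      rw [← mul_div_assoc, div_le_iff₀ hM0, sub_mul, div_mul_cancel₀ _ hM0.ne', one_mul]
      push_cast
      nlinarith
    refine key.trans ?_
    by_cases hj : j = 0
    · have h1 := count M hM (γ k j) ((H : ℝ) / 2) H (S k j) ?_
      · refine le_trans ?_ h1
        have : θ * H / M ≤ ((H : ℝ) - H / 2) / M := by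
          apply div_le_div_of_nonneg_right _ hM0.le
          nlinarith
        linarith
      · intro n hn1 hn2 hn3
        rw [hS]
        simp only [mem_filter, mem_Icc]
        have hn4 : n ≤ (H : ℤ) := by exact_mod_cast hn2
        have hn5 : (0 : ℝ) ≤ (n : ℝ) := by linarith
        have hn6 : (0 : ℤ) ≤ n := by exact_mod_cast hn5
        exact ⟨⟨by omega, hn4⟩, hn3, fun _ => hn1, fun h => absurd hj h⟩
    · have h1 := count M hM (γ k j) (-(θ * H)) (θ * H) (S k j) ?_
      · refine le_trans ?_ h1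
        have : θ * H / M ≤ (θ * H - -(θ * H)) / M := by
          apply div_le_div_of_nonneg_right _ hM0.le
          have : 0 ≤ θ * H := by positivity
          linarith
        linarith
      · intro n hn1 hn2 hn3
        rw [hS]
        simp only [mem_filter, mem_Icc]
        have hle : θ * H ≤ H := by nlinarith
        have hn4 : n ≤ (H : ℤ) := by exact_mod_cast hn2.trans hle
        have hn5 : -(H : ℝ) ≤ (n : ℝ) := by linarith
        have hn6 : -(H : ℤ) ≤ n := by exact_mod_cast hn5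
        exact ⟨⟨hn6, hn4⟩, hn3, fun h => absurd h hj, fun _ => abs_le.2 ⟨hn1, hn2⟩⟩
  -- the product set
  have hsub : Fintype.piFinset (fun k => Fintype.piFinset (S k)) ⊆
      (BXI e H).filter (fun c => (∀ k j, (M : ℤ) ∣ c k j - γ k j) ∧
        ∀ k, ∀ z : ℝ, α < z → z < β → 0 < fmv (c k) (1 : ℝ) z) := by
    intro c hc
    have hc' : ∀ k j, c k j ∈ S k j := by
      intro k j
      exact Fintype.mem_piFinset.1 (Fintype.mem_piFinset.1 hc k) j
    rw [hS] at hc'
    simp only [mem_filter, mem_Icc] at hc'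
    rw [mem_filter]
    refine ⟨?_, fun k j => (hc' k j).2.1, ?_⟩
    · unfold BXI
      rw [Fintype.mem_piFinset]
      intro k
      rw [Fintype.mem_piFinset]
      intro j
      exact mem_Icc.2 (hc' k j).1
    · intro k z hz1 hz2
      have hzB : |z| ≤ B := by
        rw [hB, abs_le]
        have a1 := neg_abs_le α
        have a2 := le_abs_self β
        have a3 := abs_nonneg α
        have a4 := abs_nonneg β
        constructor <;> linarith
      refine value (c k) H θ B z D (by linarith) hB1 hzB (hek k) hθ1 hθ0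
        ((hc' k 0).2.2.1 rfl) fun j => (hc' k j.succ).2.2.2 (Fin.succ_ne_zero j)
  have hcard2 : (((Fintype.piFinset (fun k => Fintype.piFinset (S k))).card : ℕ) : ℝ) =
      ∏ k, ∏ j, ((S k j).card : ℝ) := by
    rw [Fintype.card_piFinset]
    push_cast
    refine prod_congr rfl fun k _ => ?_
    rw [Fintype.card_piFinset]
    push_cast
    rfl
  have hprod : (θ / 8 * (((2 * H + 1 : ℕ) : ℝ) / M)) ^ ncI e ≤ ∏ k, ∏ j, ((S k j).card : ℝ) := by
    have e1 : (θ / 8 * (((2 * H + 1 : ℕ) : ℝ) / M)) ^ ncI e =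
        ∏ k : ι, ∏ _j : Fin (e k + 2), (θ / 8 * (((2 * H + 1 : ℕ) : ℝ) / M)) := by
      unfold ncI
      rw [← prod_pow_eq_pow_sum]
      refine prod_congr rfl fun k _ => ?_
      rw [prod_const, card_univ, Fintype.card_fin]
    rw [e1]
    refine prod_le_prod (fun k _ => by positivity) fun k _ => ?_
    exact prod_le_prod (fun j _ => by positivity) fun j _ => hcard k j
  calc (θ / 8) ^ ncI e * (((2 * H + 1 : ℕ) : ℝ) / M) ^ ncI e
      = (θ / 8 * (((2 * H + 1 : ℕ) : ℝ) / M)) ^ ncI e := (mul_pow _ _ _).symm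
    _ ≤ ∏ k, ∏ j, ((S k j).card : ℝ) := hprod
    _ = (((Fintype.piFinset (fun k => Fintype.piFinset (S k))).card : ℕ) : ℝ) := hcard2.symm
    _ ≤ _ := by
      exact_mod_cast card_le_card hsub

end Pool.Agent.N281.DC
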